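import Pool.Agent.Run7.h772.MM.Zv

set_option autoImplicit false

/-!
# Joint moments of the local moments of zeta with respect to arbitrary measures
-/

namespace Run7.h772.EF

open Finset Filter MeasureTheory Topology Complex
open Pool.Agent.N748.MG Pool.Agent.N748.MJ
open Run7.h772.MM (Z Z_pos Z_nn Z_cont Z_near Z_ge Z_le_inv Z_lim Z_scale nr nr_pos nr_ge_left nr_ge_right fz fz_nn fz_le fz_meas)

variable {m : ℕ}

/-- the truncated joint moment -/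
noncomputable def Q (k : Fin m → ℝ) (V δ T : ℝ) (h : Fin m → ℝ) : ℝ :=
  (1 / T) * ∫ t in {t : ℝ | t ∈ Set.Icc 0 T ∧ ∀ j, mz δ (t + h j) ≤ (2 * δ) ^ (-V)}, ∏ j, mz δ (t + h j) ^ (2 * k j)

/-- the arithmetic factor -/
noncomputable def AV (k : Fin m → ℝ) (h : Fin m → ℝ) : ℝ := (aV (fun j => (k j : ℂ)) (fun j => (k j : ℂ)) h).re

/-- the main term -/
noncomputable def W (k : Fin m → ℝ) (δ : ℝ) (h : Fin m → ℝ) : ℝ := AV k h * ∏ j, ∏ l, Z δ (h j - h l) ^ (k j * k l)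

/-- the moment -/
noncomputable def MO (k : Fin m → ℝ) (V : ℝ) (μ : Fin m → Measure ℝ) (δ T : ℝ) : ℝ :=
  (1 / T) * ∫ t in (0:ℝ)..T, ∏ j, ∫ u, fz (k j) ((2 * δ) ^ (-V)) δ (t + u) ∂(μ j)

lemma AV_bd (hP : S_POSV) (k : Fin m → ℝ) : ∃ c C : ℝ, 0 < c ∧ 0 < C ∧ ∀ h : Fin m → ℝ, c ≤ AV k h ∧ AV k h ≤ C := by
  set R : ℝ := ∑ j, |k j| with hR
  have hR0 : 0 ≤ R := Finset.sum_nonneg fun j _ => abs_nonneg _
  have hkR : ∀ j, |k j| ≤ R := fun j => Finset.single_le_sum (f := fun j => |k j|) (fun j _ => abs_nonneg _) (Finset.mem_univ j)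
  obtain ⟨c, C, hc, hC, h⟩ := hP m R hR0
  refine ⟨c, C, hc, hC, fun g => ?_⟩
  obtain ⟨h1, h2⟩ := h g
  obtain ⟨a, ha, hae⟩ := h2 k hkR
  have hn : ∀ j : Fin m, ‖((k j : ℝ) : ℂ)‖ ≤ R := fun j => by
    rw [Complex.norm_real]
    exact hkR j
  have h3 := h1 (fun j => (k j : ℂ)) (fun j => (k j : ℂ)) hn hn
  unfold AV
  rw [hae] at h3 ⊢
  rw [Complex.ofReal_re]
  rw [Complex.norm_real, Real.norm_of_nonneg (hc.le.trans ha)] at h3
  exact ⟨ha, h3⟩

lemma AV_cont (hC : S_CONV) (k : Fin m → ℝ) : Continuous fun h : Fin m → ℝ => AV k h := by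
  have h2 : Continuous fun h : Fin m → ℝ =>
      (((fun j => (k j : ℂ)), (fun j => (k j : ℂ)), h) : (Fin m → ℂ) × (Fin m → ℂ) × (Fin m → ℝ)) :=
    continuous_const.prodMk (continuous_const.prodMk continuous_id)
  have h3 := Complex.continuous_re.comp ((hC m).comp h2)
  exact h3

lemma W_pos (hP : S_POSV) {k : Fin m → ℝ} {δ : ℝ} (h0 : 0 ≤ δ) (h : Fin m → ℝ) : 0 < W k δ h := by
  obtain ⟨c, C, hc, hC, hb⟩ := AV_bd hP k
  unfold W
  exact mul_pos (hc.trans_le (hb h).1) (Finset.prod_pos fun _ _ => Finset.prod_pos fun _ _ => Real.rpow_pos_of_pos (Z_pos h0 _) _)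

lemma W_cont (hC : S_CONV) {k : Fin m → ℝ} (hk : ∀ j, 0 < k j) {δ : ℝ} (h0 : 0 < δ) : Continuous fun h : Fin m → ℝ => W k δ h := by
  unfold W
  refine (AV_cont hC k).mul (continuous_finsetProd _ fun j _ => continuous_finsetProd _ fun l _ => ?_)
  refine Continuous.rpow_const ((Z_cont h0).comp (by fun_prop)) fun h => Or.inr ?_
  exact (mul_pos (hk j) (hk l)).le

/-- the uniform form of the theorem on the shifted moments -/
lemma unif (hS : S_SM) (hP : S_POSV) {d : ℝ → ℝ} (hd : Ad d) (k : Fin m → ℝ) (V : ℝ) (hk : ∀ j, 0 < k j)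
    (hV : ∑ j, k j < V) (ε : ℝ) (hε : 0 < ε) : ∀ᶠ T : ℝ in atTop, ∀ h : Fin m → ℝ, (∀ j, |h j| ≤ T ^ ((1:ℝ) / 2)) →
      |Q k V (d T) T h - W k (d T) h| ≤ ε * W k (d T) h := by
  classical
  by_contra hcon
  rw [Filter.not_eventually] at hcon
  set bad : ℝ → (Fin m → ℝ) → Prop := fun T h => (∀ j, |h j| ≤ T ^ ((1:ℝ) / 2)) ∧
    ε * W k (d T) h < |Q k V (d T) T h - W k (d T) h| with hbad
  set h : ℝ → Fin m → ℝ := fun T => if H : ∃ g, bad T g then H.choose else fun _ => 0 with hh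
  have hle : ∀ᶠ T : ℝ in atTop, ∀ j, |h T j| ≤ T ^ ((1:ℝ) / 2) := by
    filter_upwards [eventually_ge_atTop 0] with T hT j
    simp only [hh]
    split_ifs with H
    · exact H.choose_spec.1 j
    · rw [abs_zero]
      exact Real.rpow_nonneg hT _
  have hlim := hS d hd m k V hk hV h hle
  have h1 : ∀ᶠ T : ℝ in atTop, |Q k V (d T) T (h T) / W k (d T) (h T) - 1| < ε := by
    have h2 := (Metric.tendsto_nhds.1 hlim) ε hε
    filter_upwards [h2] with T hT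
    rw [Real.dist_eq] at hT
    exact hT
  have h2 : ∃ᶠ T : ℝ in atTop, bad T (h T) := by
    refine hcon.mono fun T hT => ?_
    push Not at hT
    obtain ⟨g, hg1, hg2⟩ := hT
    have H : ∃ g, bad T g := ⟨g, hg1, hg2⟩
    simp only [hh]
    rw [dif_pos H]
    exact H.choose_spec
  obtain ⟨T, hT1, hT2, hT3⟩ := (h2.and_eventually (h1.and hd.pos)).exists
  have hW := W_pos hP (k := k) hT3.le (h T)
  have h3 := hT1.2
  have h4 : |Q k V (d T) T (h T) - W k (d T) (h T)| =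
      |Q k V (d T) T (h T) / W k (d T) (h T) - 1| * W k (d T) (h T) := by
    rw [← abs_of_pos hW, ← abs_mul, abs_of_pos hW]
    congr 1
    field_simp
  rw [h4] at h3
  nlinarith

lemma Q_eq {k : Fin m → ℝ} {V δ T : ℝ} (h1 : δ ≤ 1 / 16) (h : Fin m → ℝ) :
    Q k V δ T h = (1 / T) * ∫ t in Set.Icc 0 T, ∏ j : Fin m, fz (k j) ((2 * δ) ^ (-V)) δ (t + h j) := by
  unfold Q
  congr 1
  have hs : {t : ℝ | t ∈ Set.Icc 0 T ∧ ∀ j, mz δ (t + h j) ≤ (2 * δ) ^ (-V)} =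
      Set.Icc 0 T ∩ {t : ℝ | ∀ j, mz δ (t + h j) ≤ (2 * δ) ^ (-V)} := rfl
  have hmS : MeasurableSet {t : ℝ | ∀ j, mz δ (t + h j) ≤ (2 * δ) ^ (-V)} := by
    have : {t : ℝ | ∀ j, mz δ (t + h j) ≤ (2 * δ) ^ (-V)} = ⋂ j, {t : ℝ | mz δ (t + h j) ≤ (2 * δ) ^ (-V)} := by
      ext t
      simp
    rw [this]
    refine MeasurableSet.iInter fun j => ?_
    exact measurableSet_le ((TMA.cont h1).measurable.comp (measurable_id.add_const _)) measurable_const
  rw [hs, ← setIntegral_indicator hmS]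
  refine setIntegral_congr_fun measurableSet_Icc fun t _ => ?_
  show Set.indicator _ _ t = _
  by_cases ht : ∀ j, mz δ (t + h j) ≤ (2 * δ) ^ (-V)
  · rw [Set.indicator_of_mem (show t ∈ {t : ℝ | ∀ j, mz δ (t + h j) ≤ (2 * δ) ^ (-V)} from ht)]
    refine Finset.prod_congr rfl fun j _ => ?_
    unfold fz
    rw [if_pos (ht j)]
  · rw [Set.indicator_of_notMem (show t ∉ {t : ℝ | ∀ j, mz δ (t + h j) ≤ (2 * δ) ^ (-V)} from ht)]
    push Not at ht
    obtain ⟨j, hj⟩ := ht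
    symm
    refine Finset.prod_eq_zero (Finset.mem_univ j) ?_
    unfold fz
    rw [if_neg (not_le.2 hj)]

lemma Q_meas {k : Fin m → ℝ} {V δ T : ℝ} (h1 : δ ≤ 1 / 16) : StronglyMeasurable fun h : Fin m → ℝ => Q k V δ T h := by
  simp_rw [Q_eq h1]
  refine StronglyMeasurable.const_mul ?_ _
  have hmeas : Measurable fun z : (Fin m → ℝ) × ℝ => ∏ j : Fin m, fz (k j) ((2 * δ) ^ (-V)) δ (z.2 + z.1 j) := by
    refine Finset.measurable_prod _ fun i _ => ?_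
    exact (fz_meas h1).comp (measurable_snd.add ((measurable_pi_apply i).comp measurable_fst))
  exact hmeas.stronglyMeasurable.integral_prod_right' (ν := volume.restrict (Set.Icc 0 T))

/-- Fubini -/
lemma MO_eq {k : Fin m → ℝ} {V δ T : ℝ} (hk : ∀ j, 0 < k j) (h0 : 0 < δ) (h1 : δ ≤ 1 / 16) (hT : 0 < T)
    (μ : Fin m → Measure ℝ) [∀ j, IsFiniteMeasure (μ j)] : MO k V μ δ T = ∫ h, Q k V δ T h ∂(Measure.pi μ) := by
  have hc : 0 ≤ (2 * δ) ^ (-V) := Real.rpow_nonneg (by linarith) _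
  unfold MO
  simp_rw [Q_eq h1]
  rw [integral_const_mul]
  congr 1
  have h2 : ∀ t : ℝ, ∏ j, ∫ u, fz (k j) ((2 * δ) ^ (-V)) δ (t + u) ∂(μ j) =
      ∫ h : Fin m → ℝ, ∏ j, fz (k j) ((2 * δ) ^ (-V)) δ (t + h j) ∂(Measure.pi μ) := by
    intro t
    exact (integral_fintype_prod_eq_prod (fun (j : Fin m) (u : ℝ) => fz (k j) ((2 * δ) ^ (-V)) δ (t + u))).symm
  simp_rw [h2]
  rw [intervalIntegral.integral_of_le hT.le, ← integral_Icc_eq_integral_Ioc]
  set B : ℝ := ∏ j, ((2 * δ) ^ (-V)) ^ (2 * k j) with hB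
  have hmeas : Measurable fun z : ℝ × (Fin m → ℝ) => ∏ j, fz (k j) ((2 * δ) ^ (-V)) δ (z.1 + z.2 j) := by
    refine Finset.measurable_prod _ fun i _ => ?_
    exact (fz_meas h1).comp (measurable_fst.add ((measurable_pi_apply i).comp measurable_snd))
  have hint : Integrable (fun z : ℝ × (Fin m → ℝ) => ∏ j, fz (k j) ((2 * δ) ^ (-V)) δ (z.1 + z.2 j))
      ((volume.restrict (Set.Icc 0 T)).prod (Measure.pi μ)) := by
    refine Integrable.of_bound hmeas.aestronglyMeasurable B (Eventually.of_forall fun z => ?_)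
    rw [Real.norm_of_nonneg (Finset.prod_nonneg fun i _ => fz_nn _ _ _ _)]
    exact Finset.prod_le_prod (fun i _ => fz_nn _ _ _ _) fun i _ => fz_le (hk i).le hc
  exact integral_integral_swap hint

lemma ae_supp (μ : Fin m → Measure ℝ) [∀ j, IsFiniteMeasure (μ j)] {R : ℝ} (hR : ∀ j, μ j {x | R < |x|} = 0) :
    ∀ᵐ h ∂(Measure.pi μ), ∀ j, |h j| ≤ R := by
  rw [ae_all_iff]
  intro j
  have h1 : ∀ᵐ x ∂(μ j), |x| ≤ R := by
    rw [ae_iff]
    simpa using hR j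
  exact (Measure.tendsto_eval_ae_ae (μ := μ) (i := j)).eventually h1

lemma W_int (hP : S_POSV) (hC : S_CONV) {k : Fin m → ℝ} (hk : ∀ j, 0 < k j) {δ : ℝ} (h0 : 0 < δ) (h1 : δ ≤ 1 / 16)
    (μ : Fin m → Measure ℝ) [∀ j, IsFiniteMeasure (μ j)] : Integrable (fun h : Fin m → ℝ => W k δ h) (Measure.pi μ) := by
  obtain ⟨c, C, hc, hC', hb⟩ := AV_bd hP k
  refine Integrable.of_bound (W_cont hC hk h0).aestronglyMeasurable (C * ∏ j : Fin m, ∏ l : Fin m, (1 / δ) ^ (k j * k l))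
    (Eventually.of_forall fun h => ?_)
  rw [Real.norm_of_nonneg (W_pos hP h0.le h).le]
  unfold W
  refine mul_le_mul (hb h).2 ?_ (Finset.prod_nonneg fun _ _ => Finset.prod_nonneg fun _ _ => Real.rpow_nonneg (Z_nn _ _) _) hC'.le
  refine Finset.prod_le_prod (fun _ _ => Finset.prod_nonneg fun _ _ => Real.rpow_nonneg (Z_nn _ _) _) fun j _ =>
    Finset.prod_le_prod (fun _ _ => Real.rpow_nonneg (Z_nn _ _) _) fun l _ => ?_
  exact Real.rpow_le_rpow (Z_nn _ _) (Z_le_inv h0 h1 _) (mul_pos (hk j) (hk l)).le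

/-- the moment and the integral of the main term -/
lemma master (hS : S_SM) (hP : S_POSV) (hC : S_CONV) {d : ℝ → ℝ} (hd : Ad d) (k : Fin m → ℝ) (V : ℝ) (hk : ∀ j, 0 < k j)
    (hV : ∑ j, k j < V) (μ : Fin m → Measure ℝ) [∀ j, IsFiniteMeasure (μ j)] {R : ℝ} (hR : ∀ j, μ j {x | R < |x|} = 0)
    (ε : ℝ) (hε : 0 < ε) : ∀ᶠ T : ℝ in atTop,
      |MO k V μ (d T) T - ∫ h, W k (d T) h ∂(Measure.pi μ)| ≤ ε * ∫ h, W k (d T) h ∂(Measure.pi μ) := by
  have hd1 : ∀ᶠ T : ℝ in atTop, d T ≤ 1 / 16 := hd.t0.eventually_le_const (by norm_num)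
  have hTR : ∀ᶠ T : ℝ in atTop, R ≤ T ^ ((1:ℝ) / 2) :=
    (tendsto_rpow_atTop (by norm_num : (0:ℝ) < 1 / 2)).eventually_ge_atTop R
  filter_upwards [unif hS hP hd k V hk hV ε hε, hd.pos, hd1, eventually_gt_atTop 0, hTR] with T h1 h4 h5 h6 h7
  rw [MO_eq hk h4 h5 h6]
  have hWi := W_int hP hC hk h4 h5 μ
  have hae : ∀ᵐ h ∂(Measure.pi μ), |Q k V (d T) T h - W k (d T) h| ≤ ε * W k (d T) h := by
    filter_upwards [ae_supp μ hR] with h hh
    exact h1 h fun j => (hh j).trans h7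
  have hQi : Integrable (fun h : Fin m → ℝ => Q k V (d T) T h) (Measure.pi μ) := by
    refine (hWi.const_mul (1 + ε)).mono' (Q_meas h5).aestronglyMeasurable ?_
    filter_upwards [hae] with h hh
    have hW := W_pos hP (k := k) h4.le h
    rw [Real.norm_eq_abs]
    calc |Q k V (d T) T h| = |(Q k V (d T) T h - W k (d T) h) + W k (d T) h| := by ring_nf
      _ ≤ |Q k V (d T) T h - W k (d T) h| + |W k (d T) h| := abs_add_le _ _
      _ ≤ ε * W k (d T) h + W k (d T) h := add_le_add hh (abs_of_pos hW).le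
      _ = (1 + ε) * W k (d T) h := by ring
  rw [← integral_sub hQi hWi, ← integral_const_mul]
  refine (abs_integral_le_integral_abs).trans ?_
  exact integral_mono_ae (hQi.sub hWi).abs (hWi.const_mul ε) hae

end Run7.h772.EF
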