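import Pool.Agent.Run7.h772.EF.A

set_option autoImplicit false

/-!
# Joint moments of the local moments of zeta with respect to arbitrary measures: the energy
-/

namespace Run7.h772.EF

open Finset Filter MeasureTheory Topology Complex
open Pool.Agent.N748.MG Pool.Agent.N748.MJ
open Run7.h772.MM (Z Z_pos Z_nn Z_cont Z_near Z_ge Z_le_inv Z_lim Z_scale nr nr_pos nr_ge_left nr_ge_right fz fz_nn fz_le fz_meas)

variable {m : ℕ}

/-- the ordered pairs of different indices -/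
def OD (m : ℕ) : Finset (Fin m × Fin m) := (univ : Finset (Fin m)).offDiag

lemma pairs_split (f : Fin m → Fin m → ℝ) : ∏ j, ∏ l, f j l = (∏ j, f j j) * ∏ q ∈ OD m, f q.1 q.2 := by
  classical
  have h1 : ∏ j, ∏ l, f j l = ∏ q ∈ (univ : Finset (Fin m)) ×ˢ (univ : Finset (Fin m)), f q.1 q.2 :=
    (Finset.prod_product univ univ (fun q : Fin m × Fin m => f q.1 q.2)).symm
  have h2 : (univ : Finset (Fin m)) ×ˢ (univ : Finset (Fin m)) = (univ : Finset (Fin m)).diag ∪ OD m := by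
    unfold OD
    rw [Finset.diag_union_offDiag]
  rw [h1, h2, Finset.prod_union]
  · congr 1
    rw [Finset.prod_diag]
  · unfold OD
    exact Finset.disjoint_diag_offDiag _

/-- the normalizing exponent -/
def SE (k : Fin m → ℝ) : ℝ := ∑ j, k j ^ 2

lemma SE_nn (k : Fin m → ℝ) : 0 ≤ SE k := Finset.sum_nonneg fun _ _ => sq_nonneg _

/-- the normalized main term -/
noncomputable def NW (k : Fin m → ℝ) (δ : ℝ) (h : Fin m → ℝ) : ℝ := (2 * δ) ^ SE k * W k δ h

lemma NW_eq {k : Fin m → ℝ} {δ : ℝ} (h0 : 0 < δ) (h : Fin m → ℝ) :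
    NW k δ h = AV k h * (2 * δ * Z δ 0) ^ SE k * ∏ q ∈ OD m, Z δ (h q.1 - h q.2) ^ (k q.1 * k q.2) := by
  unfold NW W
  rw [pairs_split]
  have h1 : ∏ j, Z δ (h j - h j) ^ (k j * k j) = Z δ 0 ^ SE k := by
    unfold SE
    rw [Real.rpow_sum_of_pos (Z_pos h0.le 0)]
    refine Finset.prod_congr rfl fun j _ => ?_
    rw [sub_self, sq]
  rw [h1, Real.mul_rpow (by linarith) (Z_nn _ _)]
  ring

/-- the kernel of the energy -/
noncomputable def KE (k : Fin m → ℝ) (u : Fin m → ℝ) : ENNReal :=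
  open Classical in
  if Function.Injective u then ENNReal.ofReal (AV k u * ∏ q ∈ OD m, Z 0 (u q.1 - u q.2) ^ (k q.1 * k q.2)) else ⊤

lemma inj_ne {u : Fin m → ℝ} (hu : Function.Injective u) {q : Fin m × Fin m} (hq : q ∈ OD m) : u q.1 - u q.2 ≠ 0 := by
  unfold OD at hq
  rw [Finset.mem_offDiag] at hq
  exact sub_ne_zero.2 fun h => hq.2.2 (hu h)

lemma one_lim {d : ℝ → ℝ} (hdp : ∀ᶠ T : ℝ in atTop, 0 < d T) (hd0 : Tendsto d atTop (𝓝 0)) (S : ℝ) :
    Tendsto (fun T => (2 * d T * Z (d T) 0) ^ S) atTop (𝓝 1) := by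
  have f1 := (Z_scale 0).comp (tendsto_nhdsWithin_iff.2 ⟨hd0, hdp⟩)
  have f2 : Tendsto (fun T => 2 * d T * Z (d T) 0) atTop (𝓝 1) := by
    refine (f1.congr fun T => ?_).trans (le_of_eq ?_)
    · simp [Function.comp]
    · norm_num
  have f3 := f2.rpow_const (p := S) (Or.inl one_ne_zero)
  rwa [Real.one_rpow] at f3

/-- the pointwise limit -/
lemma NW_lim (hP : S_POSV) {d : ℝ → ℝ} (hdp : ∀ᶠ T : ℝ in atTop, 0 < d T) (hd0 : Tendsto d atTop (𝓝 0))
    {k : Fin m → ℝ} (hk : ∀ j, 0 < k j) (u : Fin m → ℝ) :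
    Tendsto (fun T => ENNReal.ofReal (NW k (d T) u)) atTop (𝓝 (KE k u)) := by
  classical
  have hd0' : Tendsto d atTop (𝓝[>] 0) := tendsto_nhdsWithin_iff.2 ⟨hd0, hdp⟩
  have hd1 : ∀ᶠ T : ℝ in atTop, d T ≤ 1 / 16 := hd0.eventually_le_const (by norm_num)
  unfold KE
  split_ifs with hu
  · refine (ENNReal.continuous_ofReal.tendsto _).comp ?_
    have h1 : Tendsto (fun T => AV k u * (2 * d T * Z (d T) 0) ^ SE k *
        ∏ q ∈ OD m, Z (d T) (u q.1 - u q.2) ^ (k q.1 * k q.2)) atTop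
        (𝓝 (AV k u * 1 * ∏ q ∈ OD m, Z 0 (u q.1 - u q.2) ^ (k q.1 * k q.2))) := by
      refine ((one_lim hdp hd0 _).const_mul _).mul (tendsto_finsetProd _ fun q hq => ?_)
      exact ((Z_lim (inj_ne hu hq)).comp hd0').rpow_const (Or.inl (Z_pos le_rfl _).ne')
    rw [mul_one] at h1
    refine h1.congr' ?_
    filter_upwards [hdp] with T g1
    rw [NW_eq g1]
  · -- two points coincide
    have hu' : ∃ a b, u a = u b ∧ a ≠ b := by
      unfold Function.Injective at hu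
      push Not at hu
      exact hu
    obtain ⟨a, b, hab, hne⟩ := hu'
    refine ENNReal.tendsto_ofReal_nhds_top.2 ?_
    obtain ⟨c2, C2, hc2, hC2, h2⟩ := AV_bd hP k
    set U : ℝ := ∑ j, |u j| + ∑ j, |u j| with hU
    have hU1 : ∀ j l, |u j - u l| ≤ U := fun j l => by
      have e1 : ∀ j, |u j| ≤ ∑ j, |u j| := fun j =>
        Finset.single_le_sum (f := fun j => |u j|) (fun j _ => abs_nonneg _) (Finset.mem_univ j)
      exact (abs_sub _ _).trans (add_le_add (e1 j) (e1 l))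
    obtain ⟨c3, hc3, h3⟩ := Z_ge U
    have hqab : (a, b) ∈ OD m := by
      unfold OD
      rw [Finset.mem_offDiag]
      exact ⟨Finset.mem_univ _, Finset.mem_univ _, hne⟩
    set P : ℝ := ∏ q ∈ (OD m).erase (a, b), c3 ^ (k q.1 * k q.2) with hPd
    have hP0 : 0 < P := Finset.prod_pos fun _ _ => Real.rpow_pos_of_pos hc3 _
    have hkab : 0 < k a * k b := mul_pos (hk a) (hk b)
    have hZ : Tendsto (fun T => Z (d T) 0) atTop atTop := by
      have e1 : Tendsto (fun T => (2 * d T * Z (d T) 0) ^ (1:ℝ)) atTop (𝓝 1) := one_lim hdp hd0 1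
      simp only [Real.rpow_one] at e1
      have e2 : Tendsto (fun T => (2 * d T)⁻¹) atTop atTop := by
        have e3 : Tendsto (fun T => 2 * d T) atTop (𝓝[>] 0) := by
          refine tendsto_nhdsWithin_iff.2 ⟨?_, ?_⟩
          · have := hd0.const_mul 2
            rwa [mul_zero] at this
          · filter_upwards [hdp] with T g1
            exact mul_pos two_pos g1
        exact tendsto_inv_nhdsGT_zero.comp e3
      have e4 := e1.pos_mul_atTop one_pos e2
      refine e4.congr' ?_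
      filter_upwards [hdp] with T g1
      field_simp
    have hZk : Tendsto (fun T => Z (d T) 0 ^ (k a * k b)) atTop atTop := (tendsto_rpow_atTop hkab).comp hZ
    have h5 : Tendsto (fun T => c2 * (2 * d T * Z (d T) 0) ^ SE k * (Z (d T) 0 ^ (k a * k b) * P)) atTop atTop := by
      have e1 : Tendsto (fun T => c2 * (2 * d T * Z (d T) 0) ^ SE k) atTop (𝓝 (c2 * 1)) := (one_lim hdp hd0 _).const_mul _
      rw [mul_one] at e1
      exact e1.pos_mul_atTop hc2 (hZk.atTop_mul_const hP0)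
    refine tendsto_atTop_mono' atTop ?_ h5
    filter_upwards [hdp, hd1] with T g1 g2
    rw [NW_eq g1]
    have e1 : 0 ≤ (2 * d T * Z (d T) 0) ^ SE k := Real.rpow_nonneg (mul_nonneg (by linarith) (Z_nn _ _)) _
    have e2 : Z (d T) 0 ^ (k a * k b) * P ≤ ∏ q ∈ OD m, Z (d T) (u q.1 - u q.2) ^ (k q.1 * k q.2) := by
      rw [← Finset.mul_prod_erase (OD m) _ hqab]
      have e3 : u (a, b).1 - u (a, b).2 = 0 := by
        show u a - u b = 0
        rw [hab, sub_self]
      rw [e3]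
      refine mul_le_mul_of_nonneg_left ?_ (Real.rpow_nonneg (Z_nn _ _) _)
      refine Finset.prod_le_prod (fun _ _ => Real.rpow_nonneg hc3.le _) fun q _ => ?_
      exact Real.rpow_le_rpow hc3.le (h3 (d T) g1 g2 _ (hU1 _ _)) (mul_pos (hk _) (hk _)).le
    have e4 : 0 ≤ Z (d T) 0 ^ (k a * k b) * P := mul_nonneg (Real.rpow_nonneg (Z_nn _ _) _) hP0.le
    exact mul_le_mul (mul_le_mul_of_nonneg_right (h2 u).1 e1) e2 e4 (mul_nonneg (hc2.le.trans (h2 u).1) e1)

/-- domination by the kernel -/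
lemma NW_dom (hP : S_POSV) {k : Fin m → ℝ} (hk : ∀ j, 0 < k j) (R : ℝ) : ∃ M : ℝ, 0 < M ∧ ∀ δ : ℝ, 0 < δ → δ ≤ 1 / 16 →
    ∀ u : Fin m → ℝ, (∀ j, |u j| ≤ R) → ENNReal.ofReal (NW k δ u) ≤ ENNReal.ofReal M * KE k u := by
  classical
  obtain ⟨c2, C2, hc2, hC2, h2⟩ := AV_bd hP k
  obtain ⟨c3, C3, hc3, hC3, h3⟩ := Z_near (2 * R)
  set M : ℝ := 2 ^ SE k * ∏ q ∈ OD m, (C3 / c3) ^ (k q.1 * k q.2) with hM
  have hMp : 0 < ∏ q ∈ OD m, (C3 / c3) ^ (k q.1 * k q.2) := Finset.prod_pos fun _ _ => Real.rpow_pos_of_pos (by positivity) _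
  have hM0 : 0 < M := by positivity
  refine ⟨M, hM0, fun δ g0 g1 u hu => ?_⟩
  unfold KE
  split_ifs with hi
  · rw [← ENNReal.ofReal_mul hM0.le]
    refine ENNReal.ofReal_le_ofReal ?_
    rw [NW_eq g0]
    have e1 : (2 * δ * Z δ 0) ^ SE k ≤ 2 ^ SE k := by
      refine Real.rpow_le_rpow (mul_nonneg (by linarith) (Z_nn _ _)) ?_ (SE_nn k)
      have h5 := Z_le_inv g0 g1 0
      calc 2 * δ * Z δ 0 ≤ 2 * δ * (1 / δ) := mul_le_mul_of_nonneg_left h5 (by linarith)
        _ = 2 := by field_simp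
    have e2 : ∏ q ∈ OD m, Z δ (u q.1 - u q.2) ^ (k q.1 * k q.2) ≤
        (∏ q ∈ OD m, (C3 / c3) ^ (k q.1 * k q.2)) * ∏ q ∈ OD m, Z 0 (u q.1 - u q.2) ^ (k q.1 * k q.2) := by
      rw [← Finset.prod_mul_distrib]
      refine Finset.prod_le_prod (fun _ _ => Real.rpow_nonneg (Z_nn _ _) _) fun q hq => ?_
      have hne := inj_ne hi hq
      have hUq : |u q.1 - u q.2| ≤ 2 * R := by
        refine (abs_sub _ _).trans ?_
        linarith [hu q.1, hu q.2]
      rw [← Real.mul_rpow (by positivity) (Z_nn _ _)]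
      refine Real.rpow_le_rpow (Z_nn _ _) ?_ (mul_pos (hk _) (hk _)).le
      have f1 := (h3 δ g0.le g1 _ hUq (Or.inl g0)).2
      have f2 := (h3 0 le_rfl (by norm_num) _ hUq (Or.inr hne)).1
      have f3 : nr 0 (u q.1 - u q.2) = |u q.1 - u q.2| := by
        unfold nr
        rw [mul_zero, zero_pow two_ne_zero, zero_add, Real.sqrt_sq_eq_abs]
      rw [f3] at f2
      have f4 : 0 < |u q.1 - u q.2| := abs_pos.2 hne
      calc Z δ (u q.1 - u q.2) ≤ C3 / nr δ (u q.1 - u q.2) := f1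
        _ ≤ C3 / |u q.1 - u q.2| := div_le_div_of_nonneg_left hC3.le f4 (nr_ge_right _ _)
        _ = C3 / c3 * (c3 / |u q.1 - u q.2|) := by field_simp
        _ ≤ C3 / c3 * Z 0 (u q.1 - u q.2) := mul_le_mul_of_nonneg_left f2 (by positivity)
    have hA : 0 ≤ AV k u := hc2.le.trans (h2 u).1
    have e3 : 0 ≤ ∏ q ∈ OD m, Z δ (u q.1 - u q.2) ^ (k q.1 * k q.2) :=
      Finset.prod_nonneg fun _ _ => Real.rpow_nonneg (Z_nn _ _) _
    calc AV k u * (2 * δ * Z δ 0) ^ SE k * ∏ q ∈ OD m, Z δ (u q.1 - u q.2) ^ (k q.1 * k q.2)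
        ≤ AV k u * 2 ^ SE k * ((∏ q ∈ OD m, (C3 / c3) ^ (k q.1 * k q.2)) *
            ∏ q ∈ OD m, Z 0 (u q.1 - u q.2) ^ (k q.1 * k q.2)) :=
          mul_le_mul (mul_le_mul_of_nonneg_left e1 hA) e2 e3 (mul_nonneg hA (by positivity))
      _ = M * (AV k u * ∏ q ∈ OD m, Z 0 (u q.1 - u q.2) ^ (k q.1 * k q.2)) := by
          rw [hM]
          ring
  · rw [ENNReal.mul_top (ENNReal.ofReal_pos.2 hM0).ne']
    exact le_top

/-- the limit of the integral of the main term -/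
lemma W_lim (hP : S_POSV) (hC : S_CONV) {d : ℝ → ℝ} (hdp : ∀ᶠ T : ℝ in atTop, 0 < d T) (hd0 : Tendsto d atTop (𝓝 0))
    {k : Fin m → ℝ} (hk : ∀ j, 0 < k j) (μ : Fin m → Measure ℝ) [∀ j, IsFiniteMeasure (μ j)] {R : ℝ}
    (hR : ∀ j, μ j {x | R < |x|} = 0) :
    Tendsto (fun T => ENNReal.ofReal ((2 * d T) ^ SE k * ∫ h, W k (d T) h ∂(Measure.pi μ))) atTop
      (𝓝 (∫⁻ u, KE k u ∂(Measure.pi μ))) := by
  classical
  have hd1 : ∀ᶠ T : ℝ in atTop, d T ≤ 1 / 16 := hd0.eventually_le_const (by norm_num)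
  set g : ℝ → (Fin m → ℝ) → ENNReal := fun T u => if 0 < d T then ENNReal.ofReal (NW k (d T) u) else 0 with hg
  have hgm : ∀ T, Measurable (g T) := by
    intro T
    rw [hg]
    by_cases h : 0 < d T
    · simp only [if_pos h]
      exact ((W_cont hC hk h).measurable.const_mul _).ennreal_ofReal
    · simp only [if_neg h]
      exact measurable_const
  have hgl : ∀ u, Tendsto (fun T => g T u) atTop (𝓝 (KE k u)) := by
    intro u
    refine (NW_lim hP hdp hd0 hk u).congr' ?_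
    filter_upwards [hdp] with T g1
    rw [hg]
    simp only [if_pos g1]
  have heq : (fun T => ∫⁻ u, g T u ∂(Measure.pi μ)) =ᶠ[atTop]
      fun T => ENNReal.ofReal ((2 * d T) ^ SE k * ∫ h, W k (d T) h ∂(Measure.pi μ)) := by
    filter_upwards [hdp, hd1] with T g1 g2
    rw [← integral_const_mul]
    have h1 : Integrable (fun h : Fin m → ℝ => (2 * d T) ^ SE k * W k (d T) h) (Measure.pi μ) :=
      (W_int hP hC hk g1 g2 μ).const_mul _
    rw [ofReal_integral_eq_lintegral_ofReal h1 (Eventually.of_forall fun h =>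
      mul_nonneg (Real.rpow_nonneg (by linarith) _) (W_pos hP g1.le h).le)]
    rw [hg]
    simp only [if_pos g1]
    rfl
  refine Tendsto.congr' heq ?_
  by_cases hfin : ∫⁻ u, KE k u ∂(Measure.pi μ) = ⊤
  · rw [hfin]
    have h1 := lintegral_liminf_le (μ := Measure.pi μ) (u := atTop) hgm
    have h2 : ∫⁻ u, liminf (fun T => g T u) atTop ∂(Measure.pi μ) = ⊤ := by
      rw [← hfin]
      refine lintegral_congr fun u => ?_
      exact (hgl u).liminf_eq
    rw [h2] at h1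
    exact tendsto_of_le_liminf_of_limsup_le h1 le_top
  · obtain ⟨M, hM, hdom⟩ := NW_dom hP hk R
    refine tendsto_lintegral_filter_of_dominated_convergence (fun u => ENNReal.ofReal M * KE k u)
      (Eventually.of_forall hgm) ?_ ?_ (Eventually.of_forall hgl)
    · filter_upwards [hdp, hd1] with T g1 g2
      filter_upwards [ae_supp μ hR] with u hu
      rw [hg]
      simp only [if_pos g1]
      exact hdom (d T) g1 g2 u hu
    · rw [lintegral_const_mul' _ _ ENNReal.ofReal_ne_top]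
      exact ENNReal.mul_ne_top ENNReal.ofReal_ne_top hfin

/-- the energy formula -/
theorem energy (hS : S_SM) (hP : S_POSV) (hC : S_CONV) {d : ℝ → ℝ} (hd : Ad d) (k : Fin m → ℝ) (V : ℝ)
    (hk : ∀ j, 0 < k j) (hV : ∑ j, k j < V) (μ : Fin m → Measure ℝ) [∀ j, IsFiniteMeasure (μ j)] {R : ℝ}
    (hR : ∀ j, μ j {x | R < |x|} = 0) :
    Tendsto (fun T => ENNReal.ofReal ((2 * d T) ^ SE k * MO k V μ (d T) T)) atTop
      (𝓝 (∫⁻ u, KE k u ∂(Measure.pi μ))) := by
  have h1 := W_lim hP hC hd.pos hd.t0 hk μ hR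
  set I : ℝ → ℝ := fun T => ∫ h, W k (d T) h ∂(Measure.pi μ) with hI
  set r : ℝ → ℝ := fun T => if I T = 0 then 1 else MO k V μ (d T) T / I T with hr
  have hI0 : ∀ᶠ T : ℝ in atTop, 0 ≤ I T := by
    filter_upwards [hd.pos] with T g1
    exact integral_nonneg fun h => (W_pos hP g1.le h).le
  have hr1 : Tendsto r atTop (𝓝 1) := by
    rw [Metric.tendsto_nhds]
    intro ε hε
    filter_upwards [master hS hP hC hd k V hk hV μ hR (ε / 2) (by positivity), hI0] with T g1 g2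
    rw [Real.dist_eq, hr]
    simp only
    split_ifs with h2
    · rw [sub_self, abs_zero]
      exact hε
    · have h3 : 0 < I T := lt_of_le_of_ne g2 (Ne.symm h2)
      have h4 : MO k V μ (d T) T / I T - 1 = (MO k V μ (d T) T - I T) / I T := by
        field_simp
      rw [h4, abs_div, abs_of_pos h3, div_lt_iff₀ h3]
      have h5 : |MO k V μ (d T) T - I T| ≤ ε / 2 * I T := g1
      nlinarith
  have hrI : ∀ᶠ T : ℝ in atTop, MO k V μ (d T) T = r T * I T := by
    filter_upwards [master hS hP hC hd k V hk hV μ hR 1 one_pos] with T g1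
    rw [hr]
    simp only
    split_ifs with h2
    · have h5 : |MO k V μ (d T) T - I T| ≤ 1 * I T := g1
      rw [h2, mul_zero, sub_zero] at h5
      rw [h2, mul_zero]
      exact abs_nonpos_iff.1 h5
    · field_simp
  have h2 : Tendsto (fun T => ENNReal.ofReal (r T)) atTop (𝓝 1) := by
    have h3 := (ENNReal.continuous_ofReal.tendsto 1).comp hr1
    rwa [ENNReal.ofReal_one] at h3
  have h3 := ENNReal.Tendsto.mul h2 (Or.inl one_ne_zero) h1 (Or.inr ENNReal.one_ne_top)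
  rw [one_mul] at h3
  refine h3.congr' ?_
  filter_upwards [hrI, hr1.eventually (lt_mem_nhds (zero_lt_one (α := ℝ))), hd.pos, hI0] with T g1 g2 g3 g4
  rw [← ENNReal.ofReal_mul g2.le, g1]
  congr 1
  show r T * ((2 * d T) ^ SE k * I T) = _
  ring

end Run7.h772.EF
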