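import Pool.Agent.Run7.h772.EF.B

set_option autoImplicit false

/-!
# The arithmetic factor as a real product over the primes, arbitrary exponents
-/

namespace Run7.h772.EF

open Finset Filter MeasureTheory Topology Complex
open Pool.Agent.N748.MG Pool.Agent.N748.MJ
open Pool.Agent.N748.MJ.POSV (bs pu)

variable {m : ℕ}

/-- the local factor -/
noncomputable def gE (k : Fin m → ℝ) (p : ℕ) (h : Fin m → ℝ) : ℝ :=
  (∏ j, ∏ l, ‖bs p (h j - h l)‖ ^ (k j * k l)) * ∑' r : ℕ, ‖lV (fun j => (k j : ℂ)) h p r‖ ^ 2 * (1 / (p:ℝ)) ^ r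

lemma gE_nn (k : Fin m → ℝ) (p : ℕ) (h : Fin m → ℝ) : 0 ≤ gE k p h := by
  unfold gE
  refine mul_nonneg (Finset.prod_nonneg fun j _ => Finset.prod_nonneg fun l _ => Real.rpow_nonneg (norm_nonneg _) _) ?_
  exact tsum_nonneg fun r => by positivity

/-- the local factor is real -/
lemma gV_gE (k : Fin m → ℝ) {p : ℕ} (hp : p.Prime) (h : Fin m → ℝ) :
    gV (fun j => (k j : ℂ)) (fun j => (k j : ℂ)) h 0 p = ((gE k p h : ℝ) : ℂ) := by
  set S : ℂ := ∑ j : Fin m, ∑ l : Fin m, Complex.log (bs p (h j - h l)) * ((k j : ℂ) * (k l : ℂ)) with hS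
  have hA : ∏ j : Fin m, ∏ l : Fin m, (bs p (h j - h l)) ^ ((k j : ℂ) * (k l : ℂ)) = Complex.exp S := by
    rw [hS, Complex.exp_sum]
    refine prod_congr rfl fun j _ => ?_
    rw [Complex.exp_sum]
    refine prod_congr rfl fun l _ => ?_
    rw [Complex.cpow_def_of_ne_zero (Pool.Agent.N748.MJ.POSV.bs_ne hp _)]
  have hconj : (starRingEnd ℂ) S = S := by
    rw [hS, map_sum]
    simp only [map_sum, map_mul, Pool.Agent.N748.MJ.POSV.bs_log_conj hp, Complex.conj_ofReal, neg_sub]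
    rw [sum_comm]
    refine sum_congr rfl fun j _ => sum_congr rfl fun l _ => ?_
    rw [mul_comm (k l : ℂ) (k j : ℂ)]
  have hSre : S = ((S.re : ℝ) : ℂ) := (Complex.conj_eq_iff_re.1 hconj).symm
  have hP : ∏ j : Fin m, ∏ l : Fin m, (bs p (h j - h l)) ^ ((k j : ℂ) * (k l : ℂ)) =
      ((∏ j, ∏ l, ‖bs p (h j - h l)‖ ^ (k j * k l) : ℝ) : ℂ) := by
    have h1 : ∏ j : Fin m, ∏ l : Fin m, (bs p (h j - h l)) ^ ((k j : ℂ) * (k l : ℂ)) =
        ((‖∏ j : Fin m, ∏ l : Fin m, (bs p (h j - h l)) ^ ((k j : ℂ) * (k l : ℂ))‖ : ℝ) : ℂ) := by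
      rw [hA, hSre, Complex.norm_exp, Complex.ofReal_re, Complex.ofReal_exp]
    rw [h1]
    congr 1
    rw [norm_prod]
    refine prod_congr rfl fun j _ => ?_
    rw [norm_prod]
    refine prod_congr rfl fun l _ => ?_
    rw [← Complex.ofReal_mul, Complex.norm_cpow_real]
  rw [Pool.Agent.N748.MJ.POSV.gV_eq, hP]
  unfold gE
  rw [Complex.ofReal_mul]
  congr 1
  unfold Pool.Agent.N748.MJ.POSV.SV
  rw [Complex.ofReal_tsum]
  refine tsum_congr fun r => ?_
  have hcj : cj (fun j : Fin m => (k j : ℂ)) = fun j : Fin m => (k j : ℂ) := by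
    funext j
    unfold cj
    exact Complex.conj_ofReal _
  rw [hcj, Complex.mul_conj', Pool.Agent.N748.MJ.POSV.xp]
  push_cast
  rfl

/-- the arithmetic factor as a real product -/
lemma AV_eq (hP : S_POSV) (k : Fin m → ℝ) (h : Fin m → ℝ) : AV k h = ∏' p : Nat.Primes, gE k p h := by
  set R : ℝ := ∑ j, |k j| with hR
  have hR0 : 0 ≤ R := Finset.sum_nonneg fun j _ => abs_nonneg _
  have hkR : ∀ j, |k j| ≤ R := fun j => Finset.single_le_sum (f := fun j => |k j|) (fun j _ => abs_nonneg _) (Finset.mem_univ j)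
  obtain ⟨C1, hC1, h1⟩ := Pool.Agent.N748.MJ.GVB.main Pool.Agent.N748.MJ.BND.main m R hR0
  have hn : ∀ j : Fin m, ‖((k j : ℝ) : ℂ)‖ ≤ R := fun j => by
    rw [Complex.norm_real]
    exact hkR j
  set f : Nat.Primes → ℂ := fun p => gV (fun j => (k j : ℂ)) (fun j => (k j : ℂ)) h 0 p with hf
  have hs : Summable fun p : Nat.Primes => ‖f p - 1‖ := by
    have h2 : Summable fun p : Nat.Primes => C1 / ((p:ℕ):ℝ) ^ 2 := by
      have h3 : Summable fun n : ℕ => C1 / (n:ℝ) ^ 2 := by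
        have h4 := (Real.summable_one_div_nat_pow.2 (by norm_num : 1 < 2)).mul_left C1
        refine h4.congr fun n => ?_
        ring
      exact h3.comp_injective Nat.Primes.coe_nat_injective
    refine Summable.of_nonneg_of_le (fun p => norm_nonneg _) (fun p => ?_) h2
    exact (h1 (fun j => (k j : ℂ)) (fun j => (k j : ℂ)) h hn hn p p.2 0 le_rfl zero_le_one).1
  have hm : Multipliable f := by
    have h3 := multipliable_one_add_of_summable hs
    refine h3.congr fun p => ?_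
    ring
  have h4 := hm.norm_tprod
  obtain ⟨c2, C2, hc2, hC2, h5⟩ := hP m R hR0
  obtain ⟨x, hx, h6⟩ := (h5 h).2 k hkR
  have h7 : AV k h = x := by
    unfold AV
    rw [h6]
    exact Complex.ofReal_re x
  have h8 : ‖∏' p, f p‖ = x := by
    have h9 : ∏' p, f p = (x : ℂ) := h6
    rw [h9, Complex.norm_real, Real.norm_of_nonneg (hc2.le.trans hx)]
  rw [h7, ← h8, h4]
  refine tprod_congr fun p => ?_
  rw [hf]
  show ‖gV (fun j => (k j : ℂ)) (fun j => (k j : ℂ)) h 0 p‖ = _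
  rw [gV_gE k p.2, Complex.norm_real, Real.norm_of_nonneg (gE_nn k p h)]

end Run7.h772.EF
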